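import Mathlib

/-!
# From rays to bodies
-/

set_option autoImplicit false

noncomputable section

namespace Helper20.M3

open MeasureTheory Set Filter Topology
open scoped Pointwise

/-- the ray principle with the base point at the origin -/
theorem ray_zero (L : Set (Fin 3 → ℝ)) (hc : IsCompact L) (hx : Convex ℝ L) (h0 : (0 : Fin 3 → ℝ) ∈ L)
    (F : (Fin 3 → ℝ) → ℝ) (hF : Continuous F)
    (h : ∀ g ∈ L, 0 ≤ ∫ t in (0 : ℝ)..1, t ^ 2 * F (t • g)) : 0 ≤ ∫ x in L, F x := by
  classical
  set J : (Fin 3 → ℝ) → ℝ := fun g => ∫ t in (0 : ℝ)..1, t ^ 2 * F (t • g) with hJ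
  set K : ℝ → ℝ := fun u => ∫ x in L, F (u • x) with hK
  have hKc : Continuous K := by
    apply continuous_parametric_integral_of_continuous (f := fun (u : ℝ) (x : Fin 3 → ℝ) => F (u • x))
      _ hc
    exact hF.comp (by fun_prop)
  have hJc : Continuous J := by
    apply intervalIntegral.continuous_parametric_intervalIntegral_of_continuous'
      (f := fun (x : Fin 3 → ℝ) (t : ℝ) => t ^ 2 * F (t • x))
    have : Continuous (fun p : (Fin 3 → ℝ) × ℝ => F (p.2 • p.1)) := hF.comp (by fun_prop)
    show Continuous (fun p : (Fin 3 → ℝ) × ℝ => p.2 ^ 2 * F (p.2 • p.1))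
    exact Continuous.mul (by fun_prop) this
  have key : ∀ s : ℝ, 0 < s → ∫ x in s • L, J x = ∫ u in (0 : ℝ)..s, u ^ 2 * K u := by
    intro s hs
    have e1 : ∫ x in s • L, J x = s ^ 3 * ∫ x in L, J (s • x) := by
      rw [Measure.setIntegral_comp_smul_of_pos volume J L hs]
      have : Module.finrank ℝ (Fin 3 → ℝ) = 3 := by simp
      rw [this, smul_eq_mul, ← mul_assoc, mul_inv_cancel₀ (by positivity), one_mul]
    have e2 : ∀ x, s ^ 3 * J (s • x) = ∫ u in (0 : ℝ)..s, u ^ 2 * F (u • x) := by
      intro x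
      have := intervalIntegral.smul_integral_comp_mul_right (a := 0) (b := 1)
        (fun u : ℝ => u ^ 2 * F (u • x)) s
      rw [zero_mul, one_mul] at this
      rw [← this, hJ, smul_eq_mul]
      have : (fun t : ℝ => (t * s) ^ 2 * F ((t * s) • x)) = fun t => s ^ 2 * (t ^ 2 * F (t • s • x)) := by
        funext t; rw [mul_smul]; ring
      rw [this, intervalIntegral.integral_const_mul]
      ring
    rw [e1, ← integral_const_mul]
    simp_rw [e2]
    have e3 : ∀ u : ℝ, u ^ 2 * K u = ∫ x in L, u ^ 2 * F (u • x) := by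
      intro u; rw [integral_const_mul]
    simp_rw [e3]
    symm
    apply intervalIntegral_integral_swap
    have hcont : Continuous (Function.uncurry (fun (u : ℝ) (x : Fin 3 → ℝ) => u ^ 2 * F (u • x))) := by
      have : Continuous (fun p : ℝ × (Fin 3 → ℝ) => F (p.1 • p.2)) := hF.comp (by fun_prop)
      show Continuous (fun p : ℝ × (Fin 3 → ℝ) => p.1 ^ 2 * F (p.1 • p.2))
      exact Continuous.mul (by fun_prop) this
    rw [Measure.prod_restrict]
    apply IntegrableOn.mono_set (t := Icc 0 s ×ˢ L)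
    · exact hcont.continuousOn.integrableOn_compact (isCompact_Icc.prod hc)
    · apply Set.prod_mono _ le_rfl
      rw [uIoc_of_le hs.le]
      exact Ioc_subset_Icc_self
  have hsub : ∀ s : ℝ, 0 < s → s ≤ 1 → s • L ⊆ L := by
    intro s hs hs1 x hx'
    obtain ⟨y, hy, rfl⟩ := hx'
    have := hx h0 hy (sub_nonneg.2 hs1) hs.le (by ring)
    simpa using this
  have mono : ∀ s : ℝ, 0 < s → s ≤ 1 → 0 ≤ ∫ u in s..1, u ^ 2 * K u := by
    intro s hs hs1
    have hint : ∀ a b : ℝ, IntervalIntegrable (fun u => u ^ 2 * K u) volume a b := by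
      intro a b
      apply Continuous.intervalIntegrable
      fun_prop
    rw [← intervalIntegral.integral_interval_sub_left (hint 0 1) (hint 0 s), ← key s hs,
      ← key 1 one_pos, one_smul, sub_nonneg]
    exact setIntegral_mono_set (hJc.continuousOn.integrableOn_compact hc)
      ((ae_restrict_iff' hc.measurableSet).2 (Filter.Eventually.of_forall h))
      (hsub s hs hs1).eventuallyLE
  by_contra hneg
  push Not at hneg
  have hK1 : K 1 < 0 := by simpa [hK] using hneg
  obtain ⟨s, hs0, hs1, hs⟩ : ∃ s : ℝ, 0 < s ∧ s < 1 ∧ ∀ u ∈ Icc s 1, K u < 0 := by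
    have : ∀ᶠ u in 𝓝 (1 : ℝ), K u < 0 := hKc.continuousAt.eventually_lt continuousAt_const hK1
    obtain ⟨ε, hε, hball⟩ := Metric.eventually_nhds_iff.1 this
    refine ⟨max (1 - ε / 2) (1 / 2), by positivity, by
      rw [max_lt_iff]; constructor <;> linarith, ?_⟩
    intro u hu
    apply hball
    rw [Real.dist_eq, abs_lt]
    have := le_max_left (1 - ε / 2) (1 / 2)
    constructor <;> linarith [hu.1, hu.2]
  have h1 := mono s hs0 hs1.le
  have h2 : 0 < ∫ u in s..1, -(u ^ 2 * K u) := by
    apply intervalIntegral.intervalIntegral_pos_of_pos_on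
    · apply Continuous.intervalIntegrable
      fun_prop
    · intro u hu
      have := hs u ⟨hu.1.le, hu.2.le⟩
      have hu0 : 0 < u := lt_trans hs0 hu.1
      nlinarith [mul_pos (pow_pos hu0 2) (neg_pos.2 this)]
    · exact hs1
  rw [intervalIntegral.integral_neg] at h2
  linarith

end Helper20.M3

end
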