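import Pool.Agent.Helper20.M3.E0

/-!
# From rays to bodies, and the moments of a nonnegative affine function
-/

set_option autoImplicit false

noncomputable section

namespace Helper20.M3

open MeasureTheory Set Filter Topology Matrix
open scoped Pointwise

/-- the ray principle: if the weighted integral of `f` along every segment from `v` to a point
of `L` is nonnegative, so is the integral of `f` over `L` -/
theorem rays (L : Set (Fin 3 → ℝ)) (hc : IsCompact L) (hx : Convex ℝ L)
    (v : Fin 3 → ℝ) (hv : v ∈ L) (f : (Fin 3 → ℝ) → ℝ) (hf : Continuous f)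
    (h : ∀ g ∈ L, 0 ≤ ∫ t in (0 : ℝ)..1, t ^ 2 * f (v + t • (g - v))) : 0 ≤ ∫ x in L, f x := by
  have h1 := ray_zero ((fun x => v + x) ⁻¹' L) ((Homeomorph.addLeft v).isCompact_preimage.2 hc)
    (hx.translate_preimage_right v) (by simpa using hv) (fun x => f (v + x))
    (hf.comp (by fun_prop)) (by
      intro g hg
      have := h (v + g) hg
      simpa using this)
  have h2 := (measurePreserving_add_left volume v).setIntegral_preimage_emb
    (measurableEmbedding_addLeft v) f L
  rwa [h2] at h1

lemma int_poly (a b c : ℝ) :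
    ∫ t in (0 : ℝ)..1, t ^ 2 * (a + b * t + c * t ^ 2) = a / 3 + b / 4 + c / 5 := by
  have : ∀ t : ℝ, t ^ 2 * (a + b * t + c * t ^ 2) = a * t ^ 2 + b * t ^ 3 + c * t ^ 4 := by
    intro t; ring
  simp_rw [this]
  rw [intervalIntegral.integral_add (Continuous.intervalIntegrable (by fun_prop) _ _)
      (Continuous.intervalIntegrable (by fun_prop) _ _),
    intervalIntegral.integral_add (Continuous.intervalIntegrable (by fun_prop) _ _)
      (Continuous.intervalIntegrable (by fun_prop) _ _),
    intervalIntegral.integral_const_mul, intervalIntegral.integral_const_mul,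
    intervalIntegral.integral_const_mul, integral_pow, integral_pow, integral_pow]
  norm_num
  ring

theorem moments (L : Set (Fin 3 → ℝ)) (hc : IsCompact L) (hx : Convex ℝ L)
    (hi : (interior L).Nonempty) (hcen : ∀ i, ∫ x in L, x i = 0)
    (y : Fin 3 → ℝ) (hy : ∀ x ∈ L, 0 ≤ 1 - x ⬝ᵥ y) :
    (∀ x ∈ L, 1 - x ⬝ᵥ y ≤ 4) ∧ (∫ x in L, (1 - x ⬝ᵥ y) = (volume L).toReal) ∧
      ∫ x in L, (1 - x ⬝ᵥ y) ^ 2 ≤ 9 / 5 * (volume L).toReal := by
  have hFc : Continuous (fun x : Fin 3 → ℝ => 1 - x ⬝ᵥ y) := by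
    unfold dotProduct; fun_prop
  have hfin : volume L ≠ ⊤ := hc.measure_ne_top
  have hpos : 0 < (volume L).toReal := by
    rw [ENNReal.toReal_pos_iff]
    exact ⟨(isOpen_interior.measure_pos volume hi).trans_le (measure_mono interior_subset),
      hfin.lt_top⟩
  have hint : ∀ g : (Fin 3 → ℝ) → ℝ, Continuous g → Integrable g (volume.restrict L) := fun g hg =>
    hg.continuousOn.integrableOn_compact hc
  have hconst : ∀ c : ℝ, ∫ _ in L, c = c * (volume L).toReal := by
    intro c
    rw [setIntegral_const, smul_eq_mul, mul_comm, Measure.real]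
  have hone : ∫ x in L, (1 - x ⬝ᵥ y) = (volume L).toReal := by
    have hd : ∫ x in L, x ⬝ᵥ y = 0 := by
      simp only [dotProduct]
      rw [integral_finsetSum _ (fun i _ => hint _ (by fun_prop))]
      apply Finset.sum_eq_zero
      intro i _
      rw [integral_mul_const, hcen i, zero_mul]
    rw [integral_sub (hint _ continuous_const) (hint _ (by unfold dotProduct; fun_prop)), hd,
      hconst, one_mul, sub_zero]
  obtain ⟨u, hu, humax⟩ := hc.exists_isMaxOn (hi.mono interior_subset) hFc.continuousOn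
  set β : ℝ := 1 - u ⬝ᵥ y with hβ
  have hβ' : ∀ x ∈ L, 1 - x ⬝ᵥ y ≤ β := fun x hx => humax hx
  have hray : ∀ (g : Fin 3 → ℝ) (t : ℝ), 1 - (u + t • (g - u)) ⬝ᵥ y =
      (1 - t) * β + t * (1 - g ⬝ᵥ y) := by
    intro g t
    rw [add_dotProduct, smul_dotProduct, sub_dotProduct, smul_eq_mul, hβ]
    ring
  have h4 : β ≤ 4 := by
    have h1 := rays L hc hx u hu (fun x => (1 - x ⬝ᵥ y) - β / 4) (by fun_prop) (by
      intro g hg
      have e : (fun t : ℝ => t ^ 2 * ((1 - (u + t • (g - u)) ⬝ᵥ y) - β / 4)) =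
          fun t => t ^ 2 * (3 / 4 * β + ((1 - g ⬝ᵥ y) - β) * t + 0 * t ^ 2) := by
        funext t
        rw [hray]
        ring
      rw [e, int_poly]
      have := hy g hg
      linarith)
    rw [integral_sub (hint _ hFc) (hint _ continuous_const), hone, hconst] at h1
    by_contra hcon
    push Not at hcon
    nlinarith
  refine ⟨fun x hx' => (hβ' x hx').trans h4, hone, ?_⟩
  have h2 := rays L hc hx u hu
    (fun x => -(1 - x ⬝ᵥ y) ^ 2 + (6 / 5 * β * (1 - x ⬝ᵥ y) - β ^ 2 / 5)) (by fun_prop) (by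
      intro g hg
      set G : ℝ := 1 - g ⬝ᵥ y with hG
      have e : (fun t : ℝ => t ^ 2 * (-(1 - (u + t • (g - u)) ⬝ᵥ y) ^ 2 +
            (6 / 5 * β * (1 - (u + t • (g - u)) ⬝ᵥ y) - β ^ 2 / 5))) =
          fun t => t ^ 2 * ((-β ^ 2 + 6 / 5 * β * β - β ^ 2 / 5) +
            (-2 * β * (G - β) + 6 / 5 * β * (G - β)) * t + (-(G - β) ^ 2) * t ^ 2) := by
        funext t
        rw [hray]
        ring
      rw [e, int_poly]
      have h0 := hy g hg
      have h1 := hβ' g hg
      have : 0 ≤ (1 / 5 : ℝ) * (G * (β - G)) := by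
        apply mul_nonneg (by norm_num)
        exact mul_nonneg h0 (sub_nonneg.2 h1)
      linarith)
  rw [integral_add (hint _ (by fun_prop)) (hint _ (by fun_prop)),
    integral_sub (hint _ (by fun_prop)) (hint _ continuous_const), integral_neg, hconst,
    integral_const_mul, hone] at h2
  nlinarith [sq_nonneg (β - 3)]

end Helper20.M3

end
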