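import Pool.Agent.Helper20.M3.EF
import Pool.Agent.Helper73.M3.Spec

/-!
# Parts E and F of the interface
-/

set_option autoImplicit false

namespace Helper20.M3

open Helper73.M3

/-- Part E -/
theorem part_E : S_E := fun L hc hx v hv f hf h => rays L hc hx v hv f hf h

/-- Part F -/
theorem part_F : S_F := fun L hL y hy => moments L hL.comp hL.conv hL.int hL.cen y hy

end Helper20.M3
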